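import Mathlib

set_option autoImplicit false

/-!
The matrix form of the rooted tree statement (MP_a46c6f_co, note 7046 of helper44), abstract part,
for a symmetric Bool matrix: first the theorem of Seinsche in split form, claim A and claim A'.
-/

namespace Pool.Agent.H83.P4

variable {X : Type}

def Sym (M : X → X → Bool) : Prop := ∀ x y, M x y = M y x

/-- induced path, loops free -/
def IsP4 (M : X → X → Bool) (a b c d : X) : Prop :=
  M a b = true ∧ M b c = true ∧ M c d = true ∧ M a c = false ∧ M a d = false ∧ M b d = false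

def Free (M : X → X → Bool) (D : Finset X) : Prop :=
  ∀ a ∈ D, ∀ b ∈ D, ∀ c ∈ D, ∀ d ∈ D, ¬ IsP4 M a b c d

def Mid (M : X → X → Bool) (D : Finset X) (u v g : X) : Prop :=
  M g g = !M u u ∧ M g u = !M u u ∧ M g v = !M u u ∧ ∀ y ∈ D, M u y = M v y → M g y = M u y

def Pairs (M : X → X → Bool) (D : Finset X) : Prop :=
  ∀ u ∈ D, ∀ v ∈ D, M u u = M v v → M u v = !M u u → ∃ g ∈ D, Mid M D u v g

/-- complement -/
def co (M : X → X → Bool) : X → X → Bool := fun x y => !M x y

theorem co_sym {M : X → X → Bool} (hs : Sym M) : Sym (co M) := by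
  intro x y; simp [co, hs x y]

theorem co_p4 {M : X → X → Bool} (hs : Sym M) {a b c d : X} (h : IsP4 (co M) a b c d) :
    IsP4 M b d a c := by
  obtain ⟨h1, h2, h3, h4, h5, h6⟩ := h
  simp only [co] at *
  refine ⟨by simpa using h6, ?_, by simpa using h4, ?_, by simpa using h2, ?_⟩
  · rw [hs d a]; simpa using h5
  · rw [hs b a]; simpa using h1
  · rw [hs d c]; simpa using h3

theorem co_free {M : X → X → Bool} (hs : Sym M) {D : Finset X} (h : Free M D) : Free (co M) D := by
  intro a ha b hb c hc d hd h4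
  exact h b hb d hd a ha c hc (co_p4 hs h4)

theorem co_pairs {M : X → X → Bool} {D : Finset X} (h : Pairs M D) : Pairs (co M) D := by
  intro u hu v hv h1 h2
  simp only [co] at h1 h2
  have h1' : M u u = M v v := by
    revert h1; cases M u u <;> cases M v v <;> simp
  have h2' : M u v = !M u u := by
    revert h2; cases M u u <;> cases M u v <;> simp
  obtain ⟨g, hg, m1, m2, m3, m4⟩ := h u hu v hv h1' h2'
  refine ⟨g, hg, ?_, ?_, ?_, ?_⟩
  · simp [co, m1]
  · simp [co, m2]
  · simp [co, m3]
  · intro y hy e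
    have e' : M u y = M v y := by
      revert e; simp only [co]; cases M u y <;> cases M v y <;> simp
    simp [co, m4 y hy e']

def Split (M : X → X → Bool) (D : Finset X) : Prop :=
  ∃ A ⊆ D, A.Nonempty ∧ (∃ y ∈ D, y ∉ A) ∧ ∃ s : Bool, ∀ x ∈ A, ∀ y ∈ D, y ∉ A → M x y = s

theorem co_split {M : X → X → Bool} {D : Finset X} (h : Split (co M) D) : Split M D := by
  obtain ⟨A, h1, h2, h3, s, h4⟩ := h
  refine ⟨A, h1, h2, h3, !s, ?_⟩
  intro x hx y hy hyA
  have := h4 x hx y hy hyA
  simp only [co] at this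
  rw [← this]; simp

variable [DecidableEq X]

theorem split_aux {M : X → X → Bool} (hs : Sym M) {A B : Finset X} {v y b : X}
    (hno : ∀ x ∈ A, ∀ y ∈ B, M x y = false) (hv : v ∉ A) (hvB : v ∉ B)
    (hdis : ∀ x ∈ A, x ∉ B)
    (hy : y ∈ A) (hvy : M v y = false) (hb : b ∈ B) (hvb : M v b = true)
    (hfree : Free M (insert v (A ∪ B))) : Split M (insert v (A ∪ B)) := by
  classical
  refine ⟨A.filter (fun t => M v t = false), ?_, ⟨y, by simp [hy, hvy]⟩, ⟨v, by simp, ?_⟩, false, ?_⟩
  · intro t ht
    simp only [Finset.mem_filter] at ht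
    simp [ht.1]
  · simp [hv]
  · intro x hx t ht htA
    simp only [Finset.mem_filter] at hx
    simp only [Finset.mem_insert, Finset.mem_union] at ht
    rcases ht with rfl | ht | ht
    · rw [hs]; exact hx.2
    · have hvt : M v t = true := by
        by_contra hc
        exact htA (by simp [ht, hc])
      by_contra hc
      have hxt : M x t = true := by simpa using hc
      refine hfree x (by simp [hx.1]) t (by simp [ht]) v (by simp) b (by simp [hb]) ?_
      refine ⟨hxt, by rw [hs]; exact hvt, hvb, by rw [hs]; exact hx.2, hno x hx.1 b hb, hno t ht b hb⟩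
    · exact hno x hx.1 t ht

theorem split_step {M : X → X → Bool} (hs : Sym M) {A B : Finset X} {v : X}
    (hA : A.Nonempty) (hB : B.Nonempty)
    (hno : ∀ x ∈ A, ∀ y ∈ B, M x y = false) (hv : v ∉ A) (hvB : v ∉ B) (hdis : ∀ x ∈ A, x ∉ B)
    (hfree : Free M (insert v (A ∪ B))) : Split M (insert v (A ∪ B)) := by
  classical
  by_cases h1 : ∃ x ∈ A, M v x = true
  swap
  · refine ⟨A, by intro t ht; simp [ht], hA, ⟨v, by simp, hv⟩, false, ?_⟩
    intro x hx y hy hyA
    simp only [Finset.mem_insert, Finset.mem_union] at hy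
    rcases hy with rfl | hy | hy
    · rw [hs]; by_contra hc; exact h1 ⟨x, hx, by simpa using hc⟩
    · exact absurd hy hyA
    · exact hno x hx y hy
  by_cases h2 : ∃ x ∈ B, M v x = true
  swap
  · refine ⟨B, by intro t ht; simp [ht], hB, ⟨v, by simp, hvB⟩, false, ?_⟩
    intro x hx y hy hyA
    simp only [Finset.mem_insert, Finset.mem_union] at hy
    rcases hy with rfl | hy | hy
    · rw [hs]; by_contra hc; exact h2 ⟨x, hx, by simpa using hc⟩
    · rw [hs]; exact hno y hy x hx
    · exact absurd hy hyA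
  obtain ⟨a, ha, hva⟩ := h1
  obtain ⟨b, hb, hvb⟩ := h2
  by_cases h3 : ∀ x ∈ A ∪ B, M v x = true
  · refine ⟨{v}, by intro t ht; simp at ht; simp [ht], by simp, ⟨a, by simp [ha], ?_⟩, true, ?_⟩
    · simp; rintro rfl; exact hv ha
    · intro x hx y hy hyA
      simp only [Finset.mem_singleton] at hx hyA
      subst hx
      rw [Finset.mem_insert] at hy
      exact h3 y (hy.resolve_left hyA)
  push Not at h3
  obtain ⟨y, hy, hvy⟩ := h3
  have hvy' : M v y = false := by simpa using hvy
  rw [Finset.mem_union] at hy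
  rcases hy with hy | hy
  · exact split_aux hs hno hv hvB hdis hy hvy' hb hvb hfree
  · rw [Finset.union_comm] at hfree ⊢
    refine split_aux hs ?_ hvB hv ?_ hy hvy' ha hva hfree
    · intro x hx t ht; rw [hs]; exact hno t ht x hx
    · intro x hx hxA; exact hdis x hxA hx

theorem split {M : X → X → Bool} (hs : Sym M) (D : Finset X) (h2 : 2 ≤ D.card)
    (hfree : Free M D) : Split M D := by
  classical
  induction D using Finset.induction_on with
  | empty => simp at h2
  | insert v D hv ih =>
    have hfree' : Free M D := fun a ha b hb c hc d hd =>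
      hfree a (by simp [ha]) b (by simp [hb]) c (by simp [hc]) d (by simp [hd])
    rw [Finset.card_insert_of_notMem hv] at h2
    rcases Nat.lt_or_ge D.card 2 with h | h
    · have h1 : D.card = 1 := by omega
      obtain ⟨x, rfl⟩ := Finset.card_eq_one.1 h1
      refine ⟨{v}, by intro t ht; simp at ht; simp [ht], by simp, ⟨x, by simp, ?_⟩, M v x, ?_⟩
      · simp; rintro rfl; simp at hv
      · intro a ha y hy hyA
        simp only [Finset.mem_singleton, Finset.mem_insert] at ha hy hyA
        subst ha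
        rcases hy with hy | hy
        · exact absurd hy hyA
        · rw [hy]
    · obtain ⟨A, hAD, hA, ⟨y, hy, hyA⟩, s, hh⟩ := ih h hfree'
      have hun : A ∪ (D \ A) = D := by
        rw [Finset.union_sdiff_of_subset hAD]
      have hB : (D \ A).Nonempty := ⟨y, by simp [hy, hyA]⟩
      have hvA : v ∉ A := fun h => hv (hAD h)
      have hvB : v ∉ D \ A := fun h => hv (Finset.mem_sdiff.1 h).1
      have hdis : ∀ x ∈ A, x ∉ D \ A := fun x hx h => (Finset.mem_sdiff.1 h).2 hx
      rw [← hun]
      rw [← hun] at hfree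
      cases s with
      | false =>
        refine split_step hs hA hB ?_ hvA hvB hdis hfree
        intro x hx y hy
        exact hh x hx y (Finset.mem_sdiff.1 hy).1 (Finset.mem_sdiff.1 hy).2
      | true =>
        refine co_split (split_step (co_sym hs) hA hB ?_ hvA hvB hdis (co_free hs hfree))
        intro x hx y hy
        simp [co, hh x hx y (Finset.mem_sdiff.1 hy).1 (Finset.mem_sdiff.1 hy).2]

/-- a constant vertex of `D` -/
def Const (M : X → X → Bool) (D : Finset X) : Prop :=
  ∃ x ∈ D, ∃ s : Bool, ∀ y ∈ D, M x y = s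

theorem const_step {M : X → X → Bool} (hs : Sym M) {D A : Finset X} (hAD : A ⊆ D) (hA : A.Nonempty)
    (hB : ∃ y ∈ D, y ∉ A) (hno : ∀ x ∈ A, ∀ y ∈ D, y ∉ A → M x y = false) (hfree : Free M D)
    (hp : Pairs M D)
    (ih : ∀ E : Finset X, E.card < D.card → E.Nonempty → Free M E → Pairs M E → Const M E) :
    Const M D := by
  classical
  by_contra hcon
  have hiso : ∀ x ∈ D, ∃ y ∈ D, M x y = true := by
    intro x hx
    by_contra hc
    push Not at hc
    exact hcon ⟨x, hx, false, fun y hy => by simpa using hc y hy⟩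
  -- pairs are inherited by both parts
  have key : ∀ E : Finset X, E ⊆ D → (∀ x ∈ E, ∀ y ∈ D, y ∉ E → M x y = false) → Pairs M E := by
    intro E hED hEno u hu v hv h1 h2
    obtain ⟨g, hg, m1, m2, m3, m4⟩ := hp u (hED hu) v (hED hv) h1 h2
    by_cases hgE : g ∈ E
    · exact ⟨g, hgE, m1, m2, m3, fun y hy => m4 y (hED hy)⟩
    · exfalso
      obtain ⟨y, hy, hgy⟩ := hiso g hg
      by_cases hyE : y ∈ E
      · have := hEno y hyE g hg hgE
        rw [hs] at this
        rw [this] at hgy
        exact absurd hgy (by simp)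
      · have a1 := hEno u hu y hy hyE
        have a2 := hEno v hv y hy hyE
        have := m4 y hy (by rw [a1, a2])
        rw [this, a1] at hgy
        exact absurd hgy (by simp)
  have full : ∀ E : Finset X, E ⊆ D → E.Nonempty → (∃ y ∈ D, y ∉ E) →
      (∀ x ∈ E, ∀ y ∈ D, y ∉ E → M x y = false) → ∃ f ∈ E, ∀ y ∈ E, M f y = true := by
    intro E hED hE hEB hEno
    obtain ⟨y0, hy0, hy0E⟩ := hEB
    have hlt : E.card < D.card := Finset.card_lt_card ⟨hED, fun h => hy0E (h hy0)⟩
    obtain ⟨f, hf, s, hfs⟩ := ih E hlt hE (fun a ha b hb c hc d hd =>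
      hfree a (hED ha) b (hED hb) c (hED hc) d (hED hd)) (key E hED hEno)
    cases s with
    | true => exact ⟨f, hf, hfs⟩
    | false =>
      exfalso
      obtain ⟨y, hy, hfy⟩ := hiso f (hED hf)
      by_cases hyE : y ∈ E
      · rw [hfs y hyE] at hfy; exact absurd hfy (by simp)
      · rw [hEno f hf y hy hyE] at hfy; exact absurd hfy (by simp)
  obtain ⟨f1, hf1, hf1'⟩ := full A hAD hA hB hno
  obtain ⟨y0, hy0, hy0A⟩ := hB
  obtain ⟨f2, hf2, hf2'⟩ := full (D \ A) Finset.sdiff_subset ⟨y0, by simp [hy0, hy0A]⟩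
    (by obtain ⟨a, ha⟩ := hA; exact ⟨a, hAD ha, by simp [ha]⟩) (by
      intro x hx y hy hyn
      have hx' := Finset.mem_sdiff.1 hx
      have hyA : y ∈ A := by
        by_contra hc
        exact hyn (Finset.mem_sdiff.2 ⟨hy, hc⟩)
      rw [hs]
      exact hno y hyA x hx'.1 hx'.2)
  have hf2m := Finset.mem_sdiff.1 hf2
  have l1 : M f1 f1 = true := hf1' f1 hf1
  have l2 : M f2 f2 = true := hf2' f2 hf2
  obtain ⟨g, hg, m1, m2, m3, m4⟩ := hp f1 (hAD hf1) f2 hf2m.1 (by rw [l1, l2])
    (by rw [hno f1 hf1 f2 hf2m.1 hf2m.2, l1]; rfl)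
  rw [l1] at m2 m3
  by_cases hgA : g ∈ A
  · have := hf1' g hgA
    rw [hs, m2] at this
    exact absurd this (by simp)
  · have := hf2' g (Finset.mem_sdiff.2 ⟨hg, hgA⟩)
    rw [hs, m3] at this
    exact absurd this (by simp)

theorem claimA (n : ℕ) : ∀ (M : X → X → Bool), Sym M → ∀ D : Finset X, D.card = n → D.Nonempty →
    Free M D → Pairs M D → Const M D := by
  classical
  induction n using Nat.strong_induction_on with
  | _ n ih =>
    intro M hs D hD hne hfree hp
    rcases Nat.lt_or_ge D.card 2 with h | h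
    · have h1 : D.card = 1 := by
        have := Finset.card_pos.2 hne
        omega
      obtain ⟨x, rfl⟩ := Finset.card_eq_one.1 h1
      exact ⟨x, by simp, M x x, by intro y hy; simp at hy; rw [hy]⟩
    · obtain ⟨A, hAD, hA, hB, s, hh⟩ := split hs D h hfree
      cases s with
      | false =>
        exact const_step hs hAD hA hB hh hfree hp (fun E hE => ih E.card (hD ▸ hE) M hs E rfl)
      | true =>
        have := const_step (co_sym hs) hAD hA hB (by
          intro x hx y hy hyA; simp [co, hh x hx y hy hyA]) (co_free hs hfree) (co_pairs hp)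
          (fun E hE => ih E.card (hD ▸ hE) (co M) (co_sym hs) E rfl)
        obtain ⟨x, hx, t, ht⟩ := this
        refine ⟨x, hx, !t, ?_⟩
        intro y hy
        have := ht y hy
        simp only [co] at this
        rw [← this]; simp

/-- claim A' : the component of `b` in `D` has a full vertex -/
theorem claimA' {M : X → X → Bool} (hs : Sym M) {D : Finset X} (hfree : Free M D) (hp : Pairs M D)
    {b y0 : X} (hb : b ∈ D) (hy0 : y0 ∈ D) (hby : M b y0 = true) :
    ∃ f ∈ D, M f f = true ∧ M f b = true ∧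
      ∀ x ∈ D, M f x = true → ∀ y ∈ D, M x y = true → M f y = true := by
  classical
  -- ball of radius two
  let R : X → X → Prop := fun u x => u = x ∨ M u x = true ∨ ∃ t ∈ D, M u t = true ∧ M t x = true
  have Rsymm : ∀ u x, R u x → R x u := by
    rintro u x (h | h | ⟨t, ht, h1, h2⟩)
    · exact Or.inl h.symm
    · exact Or.inr (Or.inl (by rw [hs]; exact h))
    · exact Or.inr (Or.inr ⟨t, ht, by rw [hs]; exact h2, by rw [hs]; exact h1⟩)
  have Rclosed : ∀ u ∈ D, ∀ x ∈ D, R u x → ∀ y ∈ D, M x y = true → R u y := by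
    rintro u hu x hx (h | h | ⟨t, ht, h1, h2⟩) y hy hxy
    · subst h; exact Or.inr (Or.inl hxy)
    · exact Or.inr (Or.inr ⟨x, hx, h, hxy⟩)
    · by_cases h3 : M u x = true
      · exact Or.inr (Or.inr ⟨x, hx, h3, hxy⟩)
      by_cases h4 : M u y = true
      · exact Or.inr (Or.inl h4)
      by_cases h5 : M t y = true
      · exact Or.inr (Or.inr ⟨t, ht, h1, h5⟩)
      exact absurd ⟨h1, h2, hxy, by simpa using h3, by simpa using h4, by simpa using h5⟩
        (hfree u hu t ht x hx y hy)
  have Rtrans : ∀ u ∈ D, ∀ v ∈ D, ∀ w ∈ D, R u v → R v w → R u w := by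
    rintro u hu v hv w hw huv (h | h | ⟨t, ht, h1, h2⟩)
    · subst h; exact huv
    · exact Rclosed u hu v hv huv w hw h
    · exact Rclosed u hu t ht (Rclosed u hu v hv huv t ht h1) w hw h2
  let K : Finset X := D.filter (fun x => R b x)
  have hKD : K ⊆ D := Finset.filter_subset _ _
  have memK : ∀ x, x ∈ K ↔ x ∈ D ∧ R b x := fun x => Finset.mem_filter
  have hbK : b ∈ K := (memK b).2 ⟨hb, Or.inl rfl⟩
  have hKclosed : ∀ x ∈ K, ∀ y ∈ D, M x y = true → y ∈ K := by
    intro x hx y hy hxy
    have := (memK x).1 hx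
    exact (memK y).2 ⟨hy, Rclosed b hb x this.1 this.2 y hy hxy⟩
  have hKp : Pairs M K := by
    intro u hu v hv h1 h2
    have hu' := (memK u).1 hu
    have hv' := (memK v).1 hv
    obtain ⟨g, hg, m1, m2, m3, m4⟩ := hp u hu'.1 v hv'.1 h1 h2
    refine ⟨g, ?_, m1, m2, m3, fun y hy => m4 y (hKD hy)⟩
    cases hl : M u u with
    | false =>
      refine hKclosed u hu g hg ?_
      rw [hs, m2, hl]; rfl
    | true =>
      have huv : M u v = false := by rw [h2, hl]; rfl
      have hR : R u v := Rtrans u hu'.1 b hb v hv'.1 (Rsymm b u hu'.2) hv'.2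
      rcases hR with h | h | ⟨t, ht, h3, h4⟩
      · subst h; rw [hl] at huv; exact absurd huv (by simp)
      · rw [huv] at h; exact absurd h (by simp)
      · have htK : t ∈ K := hKclosed u hu t ht h3
        have : M g t = true := by
          rw [m4 t ht (by rw [h3, hs v t, h4])]; exact h3
        exact hKclosed t htK g hg (by rw [hs]; exact this)
  obtain ⟨f, hf, s, hfs⟩ := claimA K.card M hs K rfl ⟨b, hbK⟩ (fun a ha b hb c hc d hd =>
    hfree a (hKD ha) b (hKD hb) c (hKD hc) d (hKD hd)) hKp
  cases s with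
  | true =>
    refine ⟨f, hKD hf, hfs f hf, hfs b hbK, ?_⟩
    intro x hx hfx y hy hxy
    have hxK : x ∈ K := hKclosed f hf x hx hfx
    exact hfs y (hKclosed x hxK y hy hxy)
  | false =>
    exfalso
    have hf' := (memK f).1 hf
    have hR := Rsymm b f hf'.2
    rcases hR with h | h | ⟨t, ht, h3, h4⟩
    · subst h
      have := hfs y0 (hKclosed f hf y0 hy0 hby)
      rw [hby] at this; exact absurd this (by simp)
    · rw [hfs b hbK] at h; exact absurd h (by simp)
    · have := hfs t (hKclosed f hf t ht h3)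
      rw [h3] at this; exact absurd this (by simp)

end Pool.Agent.H83.P4
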