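import Pool.Agent.H83.P4.Abs

set_option autoImplicit false

/-!
The minimal cylinder (MP_a46c6f_co, note 7046 of helper44): a minimal cylinder with an induced path
on four vertices has a good one.
-/

namespace Pool.Agent.H83.P4

variable {X : Type} [Fintype X] [DecidableEq X]

def N (M : X → X → Bool) (w : X) : Finset X := Finset.univ.filter (fun y => M w y = true)

def NC (M : X → X → Bool) (w : X) : Finset X := Finset.univ.filter (fun y => M w y = false)

theorem mem_N {M : X → X → Bool} {w y : X} : y ∈ N M w ↔ M w y = true := by simp [N]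

theorem mem_NC {M : X → X → Bool} {w y : X} : y ∈ NC M w ↔ M w y = false := by simp [NC]

/-- every vertex which is not constant has path-free cylinders -/
def Min (M : X → X → Bool) : Prop :=
  ∀ w, (∃ y, M w y = true) → (∃ y, M w y = false) → Free M (N M w) ∧ Free M (NC M w)

theorem pairs_sub {M : X → X → Bool} (hp : Pairs M Finset.univ) (D : Finset X)
    (hD : ∀ u ∈ D, ∀ v ∈ D, ∀ g, (∀ y, M u y = M v y → M g y = M u y) → g ∈ D) : Pairs M D := by
  intro u hu v hv h1 h2
  obtain ⟨g, -, m1, m2, m3, m4⟩ := hp u (Finset.mem_univ _) v (Finset.mem_univ _) h1 h2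
  exact ⟨g, hD u hu v hv g (fun y => m4 y (Finset.mem_univ _)), m1, m2, m3,
    fun y _ => m4 y (Finset.mem_univ _)⟩

theorem pairs_N {M : X → X → Bool} (hs : Sym M) (hp : Pairs M Finset.univ) (w : X) :
    Pairs M (N M w) := by
  refine pairs_sub hp _ ?_
  intro u hu v hv g hg
  rw [mem_N] at *
  rw [hs, hg w (by rw [hs u, hs v, hu, hv]), hs, hu]

theorem pairs_NC {M : X → X → Bool} (hs : Sym M) (hp : Pairs M Finset.univ) (w : X) :
    Pairs M (NC M w) := by
  refine pairs_sub hp _ ?_
  intro u hu v hv g hg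
  rw [mem_NC] at *
  rw [hs, hg w (by rw [hs u, hs v, hu, hv]), hs, hu]

theorem pairs_diff {M : X → X → Bool} (hs : Sym M) (hp : Pairs M Finset.univ) (b c : X) :
    Pairs M (N M b ∩ NC M c) := by
  refine pairs_sub hp _ ?_
  intro u hu v hv g hg
  rw [Finset.mem_inter, mem_N, mem_NC] at *
  exact ⟨by rw [hs, hg b (by rw [hs u, hs v, hu.1, hv.1]), hs, hu.1],
    by rw [hs, hg c (by rw [hs u, hs v, hu.2, hv.2]), hs, hu.2]⟩

section

variable {M : X → X → Bool} (hs : Sym M) (hp : Pairs M Finset.univ) (hmin : Min M)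
  (hnf : ∀ w, ∃ y, M w y = false)

include hs hp hmin

/-- step (1) -/
theorem plus {w : X} (hw : M w w = false) {y : X} (hy : M w y = true) :
    ∃ p, M p p = true ∧ M p w = true ∧ ∀ y, M w y = true → M p y = true := by
  have hfree := (hmin w ⟨y, hy⟩ ⟨w, hw⟩).1
  obtain ⟨x, hx, s, hxs⟩ := claimA _ M hs (N M w) rfl ⟨y, mem_N.2 hy⟩ hfree (pairs_N hs hp w)
  rw [mem_N] at hx
  cases s with
  | true =>
    refine ⟨x, hxs x (mem_N.2 hx), by rw [hs]; exact hx, fun y hy => hxs y (mem_N.2 hy)⟩
  | false =>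
    exfalso
    have hxx := hxs x (mem_N.2 hx)
    obtain ⟨g, -, m1, m2, m3, m4⟩ := hp w (Finset.mem_univ _) x (Finset.mem_univ _)
      (by rw [hw, hxx]) (by rw [hx, hw]; rfl)
    rw [hw] at m2 m3
    have := hxs g (mem_N.2 (by rw [hs]; exact m2))
    rw [hs, m3] at this
    exact absurd this (by simp)

include hnf

/-- step (2) -/
theorem iso {b c : X} (hbb : M b b = true) (hcc : M c c = true) (hbc : M b c = true) {y : X}
    (hy : M b y = true) (hyc : M c y = false) :
    ∃ a, M b a = true ∧ M c a = false ∧ ∀ y, M b y = true → M c y = false → M a y = false := by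
  have hfree := (hmin b ⟨b, hbb⟩ (hnf b)).1
  have hfree' : Free M (N M b ∩ NC M c) := fun p hp q hq r hr t ht =>
    hfree p (Finset.mem_inter.1 hp).1 q (Finset.mem_inter.1 hq).1 r (Finset.mem_inter.1 hr).1 t
      (Finset.mem_inter.1 ht).1
  have mem : ∀ y, y ∈ N M b ∩ NC M c ↔ M b y = true ∧ M c y = false := by
    intro y; rw [Finset.mem_inter, mem_N, mem_NC]
  obtain ⟨a, ha, s, has⟩ := claimA _ M hs (N M b ∩ NC M c) rfl ⟨y, (mem y).2 ⟨hy, hyc⟩⟩ hfree'
    (pairs_diff hs hp b c)
  have ha' := (mem a).1 ha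
  cases s with
  | false => exact ⟨a, ha'.1, ha'.2, fun y h1 h2 => has y ((mem y).2 ⟨h1, h2⟩)⟩
  | true =>
    exfalso
    have haa := has a ha
    obtain ⟨g, -, m1, m2, m3, m4⟩ := hp a (Finset.mem_univ _) c (Finset.mem_univ _)
      (by rw [haa, hcc]) (by rw [hs, ha'.2, haa]; rfl)
    rw [haa] at m2 m3
    have hgb : M g b = true := by
      rw [m4 b (Finset.mem_univ _) (by rw [hs a, hs c, ha'.1, hbc]), hs, ha'.1]
    have := has g ((mem g).2 ⟨by rw [hs]; exact hgb, by rw [hs]; exact m3⟩)
    rw [hs, m2] at this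
    exact absurd this (by simp)

/-- the good path in a minimal cylinder without full vertex -/
theorem core {p q r t : X} (hP : IsP4 M p q r t) :
    ∃ a b c d, IsP4 M a b c d ∧ M a a = false ∧ M b b = true ∧ M c c = true ∧ M d d = false ∧
      ∀ g, ¬ (M g a ≠ M g d ∧ M g b ≠ M g c) := by
  classical
  -- a vertex with maximal neighbourhood
  obtain ⟨b, -, hbmax⟩ := Finset.exists_max_image (Finset.univ : Finset X)
    (fun w => (N M w).card) ⟨p, Finset.mem_univ _⟩
  have hNE : ∃ y, M b y = true := by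
    by_contra hc
    push Not at hc
    have h0 : (N M b).card = 0 := by
      rw [Finset.card_eq_zero, Finset.eq_empty_iff_forall_notMem]
      intro y hy; exact hc y (mem_N.1 hy)
    have := hbmax p (Finset.mem_univ _)
    rw [h0] at this
    have h1 : 0 < (N M p).card := Finset.card_pos.2 ⟨q, mem_N.2 hP.1⟩
    omega
  -- maximality
  have hmax : ∀ w, (∀ y, M b y = true → M w y = true) → ∀ y, M w y = true → M b y = true := by
    intro w hw
    have hsub : N M b ⊆ N M w := fun y hy => mem_N.2 (hw y (mem_N.1 hy))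
    have := Finset.eq_of_subset_of_card_le hsub (hbmax w (Finset.mem_univ _))
    intro y hy
    have h2 : y ∈ N M w := mem_N.2 hy
    rw [← this] at h2
    exact mem_N.1 h2
  have hbb : M b b = true := by
    by_contra hc
    have hc' : M b b = false := by simpa using hc
    obtain ⟨y, hy⟩ := hNE
    obtain ⟨w, hw1, hw2, hw3⟩ := plus hs hp hmin hc' hy
    exact hc (hmax w hw3 b hw2)
  have hbfree := hmin b ⟨b, hbb⟩ (hnf b)
  -- an edge leaving the neighbourhood
  obtain ⟨y, z, hby, hbz, hyz⟩ : ∃ y z, M b y = true ∧ M b z = false ∧ M y z = true := by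
    by_contra hc
    push Not at hc
    have step : ∀ x y, M x y = true → M b x = M b y := by
      intro x y hxy
      cases h1 : M b x <;> cases h2 : M b y
      · rfl
      · exact absurd (by rw [hs]; exact hxy) (hc y x h2 h1)
      · exact absurd hxy (hc x y h1 h2)
      · rfl
    have e1 := step p q hP.1
    have e2 := step q r hP.2.1
    have e3 := step r t hP.2.2.1
    cases hbp : M b p with
    | true =>
      refine hbfree.1 p (mem_N.2 hbp) q (mem_N.2 ?_) r (mem_N.2 ?_) t (mem_N.2 ?_) hP
      · rw [← e1, hbp]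
      · rw [← e2, ← e1, hbp]
      · rw [← e3, ← e2, ← e1, hbp]
    | false =>
      refine hbfree.2 p (mem_NC.2 hbp) q (mem_NC.2 ?_) r (mem_NC.2 ?_) t (mem_NC.2 ?_) hP
      · rw [← e1, hbp]
      · rw [← e2, ← e1, hbp]
      · rw [← e3, ← e2, ← e1, hbp]
  -- the loop can be taken to be one
  obtain ⟨c1, hc11, hbc1, hc1z⟩ : ∃ c, M c c = true ∧ M b c = true ∧ M c z = true := by
    cases hl : M y y with
    | true => exact ⟨y, hl, hby, hyz⟩
    | false =>
      obtain ⟨w, hw1, hw2, hw3⟩ := plus hs hp hmin hl hyz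
      exact ⟨w, hw1, by rw [hs]; exact hw3 b (by rw [hs]; exact hby), hw3 z hyz⟩
  obtain ⟨d1, hd1c, hd1b, hd1⟩ := iso hs hp hmin hnf hc11 hbb (by rw [hs]; exact hbc1) hc1z hbz
  have hd1d : M d1 d1 = false := hd1 d1 hd1c hd1b
  obtain ⟨q1, hq1, hq1d, hq1s⟩ := plus hs hp hmin hd1d (y := c1) (by rw [hs]; exact hd1c)
  have hq1c : M q1 c1 = true := hq1s c1 (by rw [hs]; exact hd1c)
  have hq1b : M b q1 = true := by
    by_contra hc
    have hc' : M b q1 = false := by simpa using hc
    have := hd1 q1 (by rw [hs]; exact hq1c) hc'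
    rw [hs, hq1d] at this
    exact absurd this (by simp)
  -- step (3)
  obtain ⟨d, hdd, hbd, ⟨u, hdu⟩, hdsub⟩ : ∃ d, M d d = false ∧ M b d = false ∧
      (∃ u, M d u = true) ∧ ∀ y, M d y = true → M b y = true := by
    by_cases hsub : ∀ y, M d1 y = true → M b y = true
    · exact ⟨d1, hd1d, hd1b, ⟨c1, by rw [hs]; exact hd1c⟩, hsub⟩
    push Not at hsub
    obtain ⟨y1, hy1, hby1⟩ := hsub
    have hby1' : M b y1 = false := by simpa using hby1
    obtain ⟨f, hf, hff, hfd, hfcl⟩ := claimA' hs hbfree.2 (pairs_NC hs hp b) (mem_NC.2 hd1b)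
      (mem_NC.2 hby1') hy1
    rw [mem_NC] at hf
    obtain ⟨g, -, m1, m2, m3, m4⟩ := hp f (Finset.mem_univ _) b (Finset.mem_univ _)
      (by rw [hff, hbb]) (by rw [hs, hf, hff]; rfl)
    rw [hff] at m1 m2 m3
    have hgb : M b g = false := by rw [hs]; exact m3
    refine ⟨g, m1, hgb, ⟨q1, ?_⟩, ?_⟩
    · have hfq : M f q1 = true := by
        rw [hs]
        exact hq1s f (by rw [hs]; exact hfd)
      rw [m4 q1 (Finset.mem_univ _) (by rw [hfq, hq1b])]
      exact hfq
    · intro y hgy
      by_contra hc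
      have hc' : M b y = false := by simpa using hc
      have hfy : M f y = true := by
        by_contra hfy
        have hfy' : M f y = false := by simpa using hfy
        have := m4 y (Finset.mem_univ _) (by rw [hfy', hc'])
        rw [hgy, hfy'] at this
        exact absurd this (by simp)
      have := hfcl y (mem_NC.2 hc') hfy g (mem_NC.2 hgb) (by rw [hs]; exact hgy)
      rw [hs, m2] at this
      exact absurd this (by simp)
  -- step (4)
  obtain ⟨c, hcc, hcd, hcsub⟩ := plus hs hp hmin hdd hdu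
  have hbc : M b c = true := hdsub c (by rw [hs]; exact hcd)
  obtain ⟨v0, hbv0, hcv0⟩ : ∃ v, M b v = true ∧ M c v = false := by
    by_contra hc
    push Not at hc
    have h1 := hmax c (fun y hy => by simpa using hc y hy) d hcd
    rw [hbd] at h1
    exact absurd h1 (by simp)
  obtain ⟨a, hba, hca, haiso⟩ := iso hs hp hmin hnf hbb hcc hbc hbv0 hcv0
  have haa : M a a = false := haiso a hba hca
  have had : M d a = false := by
    by_contra hc
    have h1 := hcsub a (by simpa using hc)
    rw [hca] at h1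
    exact absurd h1 (by simp)
  refine ⟨a, b, c, d, ⟨by rw [hs]; exact hba, hbc, hcd, by rw [hs]; exact hca, by rw [hs]; exact had,
    hbd⟩, haa, hbb, hcc, hdd, ?_⟩
  -- step (5)
  rintro g ⟨g1, g2⟩
  have hgd : M d g = false := by
    by_contra hc
    have hc' : M d g = true := by simpa using hc
    have h1 := hdsub g hc'
    have h2 := hcsub g hc'
    rw [hs] at h1 h2
    exact g2 (by rw [h1, h2])
  have hga : M a g = true := by
    rw [hs]
    rw [hs g d, hgd] at g1
    simpa using g1
  have hgc : M c g = true := by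
    by_contra hc
    have hc' : M c g = false := by simpa using hc
    have hgb : M b g = true := by
      rw [hs g c, hc'] at g2
      rw [hs]; simpa using g2
    have := haiso g hgb hc'
    rw [hga] at this
    exact absurd this (by simp)
  have hgb : M b g = false := by
    rw [hs g c, hgc] at g2
    rw [hs]; simpa using g2
  have hdfree := hmin d ⟨u, hdu⟩ ⟨d, hdd⟩
  obtain ⟨f, hf, hff, hfa, hfcl⟩ := claimA' hs hdfree.2 (pairs_NC hs hp d) (mem_NC.2 had)
    (mem_NC.2 (by rw [hs]; exact hbd)) (b := a) (y0 := b) (by rw [hs]; exact hba)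
  rw [mem_NC] at hf
  have hfb : M f b = true := hfcl a (mem_NC.2 had) hfa b (mem_NC.2 (by rw [hs]; exact hbd))
    (by rw [hs]; exact hba)
  have hfg : M f g = true := hfcl a (mem_NC.2 had) hfa g (mem_NC.2 hgd) hga
  have hfc : M f c = true := by
    by_contra hc
    have hc' : M f c = false := by simpa using hc
    have := haiso f (by rw [hs]; exact hfb) (by rw [hs]; exact hc')
    rw [hs, hfa] at this
    exact absurd this (by simp)
  obtain ⟨v, hdv, hfv⟩ : ∃ v, M d v = true ∧ M f v = false := by
    by_contra hc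
    push Not at hc
    have hsub : ∀ y, M b y = true → M f y = true := by
      intro y hy
      cases hdy : M d y with
      | true => simpa using hc y hdy
      | false =>
        exact hfcl b (mem_NC.2 (by rw [hs]; exact hbd)) hfb y (mem_NC.2 hdy) hy
    have := hmax f hsub g hfg
    rw [hgb] at this
    exact absurd this (by simp)
  have hbv := hdsub v hdv
  have hcv := hcsub v hdv
  have hcfree := hmin c ⟨c, hcc⟩ ⟨a, hca⟩
  refine hcfree.1 f (mem_N.2 (by rw [hs]; exact hfc)) b (mem_N.2 (by rw [hs]; exact hbc)) v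
    (mem_N.2 hcv) d (mem_N.2 hcd) ?_
  exact ⟨hfb, hbv, by rw [hs]; exact hdv, hfv, by rw [hs]; exact hf, hbd⟩

end

end Pool.Agent.H83.P4
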