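import Pool.Agent.H83.P4.Core
import Pool.Agent.H17.P3.Defs

set_option autoImplicit false

/-!
Proof of `Pool.Agent.H17.P3.P3` (MP_a46c6f_co, note 7046 of helper44): pass to a minimal cylinder with
an induced path on four vertices.
-/

namespace Pool.Agent.H83.P4

variable {Y : Type} [Fintype Y] [DecidableEq Y]

/-- cylinders -/
def cyl (M : Y → Y → Bool) (P : Finset Y) (γ : Y → Bool) : Finset Y :=
  Finset.univ.filter (fun y => ∀ p ∈ P, M y p = γ p)

theorem mem_cyl {M : Y → Y → Bool} {P : Finset Y} {γ : Y → Bool} {y : Y} :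
    y ∈ cyl M P γ ↔ ∀ p ∈ P, M y p = γ p := by simp [cyl]

/-- a cylinder cut by one more vertex -/
theorem cut {M : Y → Y → Bool} {P : Finset Y} {γ : Y → Bool} {w : Y} {s : Bool}
    {z : Y} (hz : z ∈ cyl M P γ) (hzw : M z w ≠ s)
    (hmin : ∀ Q δ, (cyl M Q δ).card < (cyl M P γ).card → Free M (cyl M Q δ)) :
    ∀ a ∈ cyl M P γ, ∀ b ∈ cyl M P γ, ∀ c ∈ cyl M P γ, ∀ d ∈ cyl M P γ, M a w = s → M b w = s →
      M c w = s → M d w = s → ¬ IsP4 M a b c d := by
  intro a ha b hb c hc d hd ha' hb' hc' hd'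
  by_cases hw : w ∈ P
  · exfalso
    rw [mem_cyl] at hz ha
    exact hzw (by rw [hz w hw, ← ha w hw, ha'])
  let δ : Y → Bool := fun p => if p = w then s else γ p
  have mem : ∀ y, y ∈ cyl M (insert w P) δ ↔ y ∈ cyl M P γ ∧ M y w = s := by
    intro y
    rw [mem_cyl, mem_cyl]
    constructor
    · intro h
      refine ⟨fun p hp => ?_, ?_⟩
      · have := h p (Finset.mem_insert_of_mem hp)
        have hpw : p ≠ w := fun e => hw (e ▸ hp)
        simpa [δ, hpw] using this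
      · have := h w (Finset.mem_insert_self _ _)
        simpa [δ] using this
    · rintro ⟨h1, h2⟩ p hp
      rcases Finset.mem_insert.1 hp with rfl | hp
      · simpa [δ] using h2
      · have hpw : p ≠ w := fun e => hw (e ▸ hp)
        simpa [δ, hpw] using h1 p hp
  have hlt : (cyl M (insert w P) δ).card < (cyl M P γ).card := by
    refine Finset.card_lt_card ⟨fun y hy => ((mem y).1 hy).1, fun h => ?_⟩
    exact hzw ((mem z).1 (h hz)).2
  exact hmin _ _ hlt a ((mem a).2 ⟨ha, ha'⟩) b ((mem b).2 ⟨hb, hb'⟩) c ((mem c).2 ⟨hc, hc'⟩) d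
    ((mem d).2 ⟨hd, hd'⟩)

theorem main_bool (M : Y → Y → Bool) (hs : Sym M) (hp : Pairs M Finset.univ)
    (hsplit : ∀ a b c d, IsP4 M a b c d → M a a = false → M b b = true → M c c = true →
      M d d = false → ∃ g, (M g a ≠ M g d ∧ M g b ≠ M g c) ∧
        ∀ y, M a y = M b y → M a y = M c y → M a y = M d y → M g y = M a y) :
    ∀ a b c d, ¬ IsP4 M a b c d := by
  classical
  intro a0 b0 c0 d0 h0
  -- a minimal cylinder
  let S : Set ℕ := {n | ∃ P γ, ¬ Free M (cyl M P γ) ∧ (cyl M P γ).card = n}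
  have hS : S.Nonempty := by
    refine ⟨_, ∅, fun _ => true, ?_, rfl⟩
    intro h
    exact h a0 (by simp [mem_cyl]) b0 (by simp [mem_cyl]) c0 (by simp [mem_cyl]) d0
      (by simp [mem_cyl]) h0
  obtain ⟨P, γ, hnfree, hcard⟩ := Nat.sInf_mem hS
  have hmin : ∀ Q δ, (cyl M Q δ).card < (cyl M P γ).card → Free M (cyl M Q δ) := by
    intro Q δ hlt
    by_contra hc
    have : sInf S ≤ (cyl M Q δ).card := Nat.sInf_le ⟨Q, δ, hc, rfl⟩
    omega
  let C := {x : Y // x ∈ cyl M P γ}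
  let L : C → C → Bool := fun x y => M x.1 y.1
  have Ls : Sym L := fun x y => hs x.1 y.1
  have Lp : Pairs L Finset.univ := by
    intro u _ v _ h1 h2
    obtain ⟨g, -, m1, m2, m3, m4⟩ := hp u.1 (Finset.mem_univ _) v.1 (Finset.mem_univ _) h1 h2
    have hg : g ∈ cyl M P γ := by
      rw [mem_cyl]
      intro p hp'
      have e1 := mem_cyl.1 u.2 p hp'
      have e2 := mem_cyl.1 v.2 p hp'
      rw [m4 p (Finset.mem_univ _) (by rw [e1, e2]), e1]
    exact ⟨⟨g, hg⟩, Finset.mem_univ _, m1, m2, m3, fun y _ => m4 y.1 (Finset.mem_univ _)⟩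
  have Lmin : Min L := by
    rintro w ⟨y, hy⟩ ⟨z, hz⟩
    constructor
    · intro a ha b hb c hc d hd h4
      rw [mem_N] at ha hb hc hd
      refine cut (w := w.1) (s := true) z.2 ?_ hmin a.1 a.2 b.1 b.2 c.1 c.2 d.1 d.2 ?_ ?_ ?_ ?_ h4
      · rw [hs]; intro e; exact absurd (hz.symm.trans e) (by simp)
      · rw [hs]; exact ha
      · rw [hs]; exact hb
      · rw [hs]; exact hc
      · rw [hs]; exact hd
    · intro a ha b hb c hc d hd h4
      rw [mem_NC] at ha hb hc hd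
      refine cut (w := w.1) (s := false) y.2 ?_ hmin a.1 a.2 b.1 b.2 c.1 c.2 d.1 d.2 ?_ ?_ ?_ ?_ h4
      · rw [hs]; intro e; exact absurd (hy.symm.trans e) (by simp)
      · rw [hs]; exact ha
      · rw [hs]; exact hb
      · rw [hs]; exact hc
      · rw [hs]; exact hd
  obtain ⟨p, hpC, q, hqC, r, hrC, t, htC, h4⟩ : ∃ p ∈ cyl M P γ, ∃ q ∈ cyl M P γ, ∃ r ∈ cyl M P γ,
      ∃ t ∈ cyl M P γ, IsP4 M p q r t := by
    by_contra hc
    exact hnfree (fun a ha b hb c hc' d hd h => hc ⟨a, ha, b, hb, c, hc', d, hd, h⟩)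
  have hL4 : IsP4 L ⟨p, hpC⟩ ⟨q, hqC⟩ ⟨r, hrC⟩ ⟨t, htC⟩ := h4
  -- the good path
  have hgood : ∃ a b c d : C, IsP4 L a b c d ∧ L a a = false ∧ L b b = true ∧ L c c = true ∧
      L d d = false ∧ ∀ g, ¬ (L g a ≠ L g d ∧ L g b ≠ L g c) := by
    by_cases hf : ∀ w : C, ∃ y, L w y = false
    · exact core Ls Lp Lmin hf hL4
    · push Not at hf
      obtain ⟨w, hw⟩ := hf
      have hw' : ∀ y, L w y = true := fun y => by simpa using hw y
      have cNe : ∀ w, N (co L) w = NC L w := by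
        intro w; ext y; rw [mem_N, mem_NC]; simp [co]
      have cNe' : ∀ w, NC (co L) w = N L w := by
        intro w; ext y; rw [mem_N, mem_NC]; simp [co]
      have cmin : Min (co L) := by
        rintro x ⟨y, hy⟩ ⟨z, hz⟩
        have := Lmin x ⟨z, by simpa [co] using hz⟩ ⟨y, by simpa [co] using hy⟩
        rw [cNe, cNe']
        exact ⟨co_free Ls this.2, co_free Ls this.1⟩
      have cnf : ∀ x : C, ∃ y, co L x y = false := by
        intro x
        refine ⟨w, ?_⟩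
        simp only [co]
        rw [Ls, hw']
        rfl
      have c4 : IsP4 (co L) ⟨q, hqC⟩ ⟨t, htC⟩ ⟨p, hpC⟩ ⟨r, hrC⟩ := by
        obtain ⟨h1, h2, h3, h4, h5, h6⟩ := hL4
        refine ⟨by simp [co, h6], ?_, by simp [co, h4], ?_, by simp [co, h2], ?_⟩
        · simp only [co]; rw [Ls, h5]; rfl
        · simp only [co]; rw [Ls, h1]; rfl
        · simp only [co]; rw [Ls, h3]; rfl
      obtain ⟨a, b, c, d, k4, ka, kb, kc, kd, kg⟩ := core (co_sym Ls) (co_pairs Lp) cmin cnf c4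
      refine ⟨b, d, a, c, co_p4 Ls k4, by simpa [co] using kb, by simpa [co] using kd,
        by simpa [co] using ka, by simpa [co] using kc, ?_⟩
      rintro g ⟨g1, g2⟩
      refine kg g ⟨?_, ?_⟩
      · simp only [co]; intro e; exact g2 (by
          revert e; cases L g a <;> cases L g d <;> simp)
      · simp only [co]; intro e; exact g1 (by
          revert e; cases L g b <;> cases L g c <;> simp)
  obtain ⟨a, b, c, d, k4, ka, kb, kc, kd, kg⟩ := hgood
  obtain ⟨g, hbad, hg⟩ := hsplit a.1 b.1 c.1 d.1 k4 ka kb kc kd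
  have hgC : g ∈ cyl M P γ := by
    rw [mem_cyl]
    intro x hx
    have e1 := mem_cyl.1 a.2 x hx
    rw [hg x (by rw [e1, mem_cyl.1 b.2 x hx]) (by rw [e1, mem_cyl.1 c.2 x hx])
      (by rw [e1, mem_cyl.1 d.2 x hx]), e1]
  exact kg ⟨g, hgC⟩ hbad

/-- **the matrix statement (P3) is true** -/
theorem p3 : Pool.Agent.H17.P3.P3 := by
  classical
  intro X _ M hs hp hsplit a b c d h4
  cases nonempty_fintype X
  let B : X → X → Bool := fun x y => decide (M x y = 1)
  have hz : ∀ z : ZMod 2, z = 0 ∨ z = 1 := by decide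
  have bt : ∀ x y, B x y = true ↔ M x y = 1 := fun x y => by simp [B]
  have bf : ∀ x y, B x y = false ↔ M x y = 0 := fun x y => by
    rcases hz (M x y) with h | h <;> simp [B, h]
  have be : ∀ x y z w, B x y = B z w ↔ M x y = M z w := by
    intro x y z w
    rcases hz (M x y) with h | h <;> rcases hz (M z w) with h' | h' <;> simp [B, h, h']
  have bn : ∀ x y z w, (B x y = !B z w) ↔ M x y ≠ M z w := by
    intro x y z w
    rcases hz (M x y) with h | h <;> rcases hz (M z w) with h' | h' <;> simp [B, h, h']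
  have tri : ∀ x y z : ZMod 2, x ≠ y → z ≠ y → x = z := by decide
  refine main_bool B (fun x y => (be _ _ _ _).2 (hs x y)) ?_ ?_ a b c d ?_
  · intro u _ v _ h1 h2
    obtain ⟨g, m1, m2, m3, m4⟩ := hp u v ((be _ _ _ _).1 h1) ((bn _ _ _ _).1 h2)
    refine ⟨g, Finset.mem_univ _, (bn _ _ _ _).2 m1, (bn _ _ _ _).2 ?_, (bn _ _ _ _).2 ?_,
      fun y _ hy => (be _ _ _ _).2 (m4 y ((be _ _ _ _).1 hy))⟩
    · rw [m2]; exact m1
    · rw [m3]; exact m1
  · intro a b c d k4 ka kb kc kd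
    obtain ⟨g, hg, hg'⟩ := hsplit a b c d
      ⟨(bt _ _).1 k4.1, (bt _ _).1 k4.2.1, (bt _ _).1 k4.2.2.1, (bf _ _).1 k4.2.2.2.1,
        (bf _ _).1 k4.2.2.2.2.1, (bf _ _).1 k4.2.2.2.2.2⟩
      ((bf _ _).1 ka) ((bt _ _).1 kb) ((bt _ _).1 kc) ((bf _ _).1 kd)
    refine ⟨g, ⟨fun e => hg.1 ((be _ _ _ _).1 e), fun e => hg.2 ((be _ _ _ _).1 e)⟩, ?_⟩
    intro y h1 h2 h3
    exact (be _ _ _ _).2 (hg' y ((be _ _ _ _).1 h1) ((be _ _ _ _).1 h2) ((be _ _ _ _).1 h3))
  · exact ⟨(bt _ _).2 h4.ab, (bt _ _).2 h4.bc, (bt _ _).2 h4.cd, (bf _ _).2 h4.ac,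
      (bf _ _).2 h4.ad, (bf _ _).2 h4.bd⟩

end Pool.Agent.H83.P4
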